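import Pool.Agent.LibKSF.F14
import Pool.Agent.LibKS.E5

set_option autoImplicit false

namespace Pool.Agent.Results.MP_d83035_al.SylowLaws

open LibKS

/-- Let `p` be a prime, `w` a nontrivial element of a free group and `N` a number such that the
reduced word of `w` has length at most `N + 1` or, more generally, `w - 1` is not in the power
`N + 2` of the augmentation ideal of the group algebra over the field with `p` elements.
Then every finite group `G` whose Sylow `p`-subgroups satisfy the law `w` has a normal series of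
length `2 N + 1` in which every second factor is a direct product of nonabelian simple groups of
order divisible by `p` and the other factors have subnormal series whose factors are `p`-groups,
`p'`-groups or sections of `Out(T)` for nonabelian simple sections `T` of `G` of order divisible
by `p`. If these groups `Out(T)` are `p`-soluble, the other factors are `p`-soluble. -/
theorem result (p : ℕ) (hp : p.Prime) (k : ℕ) (w : FreeGroup (Fin k)) (hw : w ≠ 1) (N : ℕ)
    (hN : w.toWord.length ≤ N + 1 ∨
      MonoidAlgebra.of (ZMod p) (FreeGroup (Fin k)) w - 1 ∉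
        (Submodule.span (ZMod p) (Set.range fun g : FreeGroup (Fin k) =>
          MonoidAlgebra.of (ZMod p) (FreeGroup (Fin k)) g - 1)) ^ (N + 2))
    (G : Type) [Group G] [Finite G]
    (hG : ∀ (P : Sylow p G) (f : Fin k → ↥(P : Subgroup G)), FreeGroup.lift f w = 1) :
      ∃ s : ℕ → Subgroup G, s 0 = ⊥ ∧ s (2 * N + 1) = ⊤ ∧ (∀ i, s i ≤ s (i + 1)) ∧
        (∀ i, (s i).Normal) ∧
        (∀ i < N, ∃ (m : ℕ) (n : Fin m → ℕ)
          (T : (j : Fin m) → Subgroup (Equiv.Perm (Fin (n j))))
          (φ : ↥(s (2 * i + 2)) →* ((j : Fin m) → ↥(T j))),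
          Function.Surjective φ ∧ φ.ker = (s (2 * i + 1)).subgroupOf (s (2 * i + 2)) ∧
          ∀ j, IsSimpleGroup ↥(T j) ∧ (∃ a b : ↥(T j), a * b ≠ b * a) ∧
            p ∣ Nat.card ↥(T j)) ∧
        (∀ i ≤ N, ∃ (m : ℕ) (H : ℕ → Subgroup G), H 0 = s (2 * i) ∧ H m = s (2 * i + 1) ∧
          ∀ j < m, H j ≤ H (j + 1) ∧ ((H j).subgroupOf (H (j + 1))).Normal ∧
            ((∃ e : ℕ, ((H j).subgroupOf (H (j + 1))).index = p ^ e) ∨
              Nat.Coprime p (((H j).subgroupOf (H (j + 1))).index) ∨
              ∃ (X : Type) (_ : Group X) (f : ↥(H (j + 1)) →* X), Function.Surjective f ∧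
                f.ker = (H j).subgroupOf (H (j + 1)) ∧ OutSection p G X)) ∧
        ((∀ (T : Type) [Group T] [Finite T], IsSimpleGroup T → (∃ a b : T, a * b ≠ b * a) →
            p ∣ Nat.card T → IsSection T G →
            PSol p (MulAut T ⧸ (MulAut.conj : T →* MulAut T).range)) →
          ∀ i ≤ N, ∃ (m : ℕ) (H : ℕ → Subgroup G), H 0 = s (2 * i) ∧ H m = s (2 * i + 1) ∧
            ∀ j < m, H j ≤ H (j + 1) ∧ ((H j).subgroupOf (H (j + 1))).Normal ∧
              ((∃ e : ℕ, ((H j).subgroupOf (H (j + 1))).index = p ^ e) ∨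
                Nat.Coprime p (((H j).subgroupOf (H (j + 1))).index))) := by
  have : Fact p.Prime := ⟨hp⟩
  have hPL := main_depth (admClass p hp G) w hw N hN G (admClass_outHyp p hp G) hG
  obtain ⟨s, h0, h1, h2, h3, h4, h5⟩ := exists_series (admClass p hp G) N G hPL
  exact ⟨s, h0, h1, h2, h3, h5, fun i hi => AdmFactor.of_class hp (h2 _) (h4 i hi),
    fun hO i hi => PSolFactor.of_admClass hp hO (h2 _) (h4 i hi)⟩

end Pool.Agent.Results.MP_d83035_al.SylowLaws
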